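import Pool.Agent.V8H87.CM.Prime2

/-!
# MP_bc729a_al, Q1: the groups `L_2(q)` with `q` prime or `q` not congruent to 1 modulo 4

Let `T` be a finite simple group. If `T` is a composition factor of a finite group all of whose maximal
subgroups have complements, we may pass to a quotient `G` such that `T` is a factor of each minimal
normal subgroup `N`; let `𝒯` be the set of the simple factors of `N`.

Criterion. Let `A` be a subgroup of `T`, neither trivial nor `T`, whose conjugacy class is invariant
under automorphisms, and `p` a prime which divides the index of each proper subgroup that contains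
`A`. If each automorphism `α` of `T` with `α ^ p = 1` leaves a conjugate of `A` invariant, there is no
such `G`: take a family of conjugates of `A`, one in each `t` in `𝒯`; a maximal subgroup `M` which
contains its stabiliser has index divisible by `p`, and each element of order `p` in `G` fixes such a
family, so lies in a conjugate of `M`.

Pairs. Let `T` act doubly transitively on a set `Ω`, such that automorphisms permute the point
stabilisers. Let `A` be the stabiliser of a pair and `p = 2`. An automorphism `α` with `α ^ 2 = 1`
induces a permutation of `Ω` of order at most two, which leaves a pair invariant. So only the overgroups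
of `A` matter. If `Ω` has `2 ^ a + 1` points, an overgroup of odd index contains a Sylow 2-subgroup, which
fixes a point and is transitive on the others; hence it is doubly transitive and equal to `T`.

`L_2(q)` acts on the projective line. For even `q` the last argument applies. For `q` congruent to 3
modulo 4 let `C` be a proper overgroup of `A = D_{q-1}`, `C` different from `A`. Then `C` is transitive and
`C_∞` fixes `0` (otherwise it contains all translations, because each element of `F` is a square or
minus a square). The element `h` of `C` with `h(∞) = 1` has `h(0) = c`, and `k(0) = c k(∞)` or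
`k(∞) / c` for all `k` in `C` with `k(∞)` different from `0` and `∞`. For `k = h τ h`, `τ(z) = t ^ 2 z`,
this is a polynomial equation for `t` of degree at most twelve; so `q - 1 ≤ 12`.

Let `q = p ≥ 13` be a prime congruent to 1 modulo 4. As above, `A = D_{p-1}` is maximal in `T`; its index is
the odd number `p (p + 1) / 2`. A complement of the stabiliser of a family of conjugates of `A` has odd
order `(p (p + 1) / 2) ^ k`, `k = #𝒯`. Let `r` be a prime divisor of `(p + 1) / 2`. Comparison with `k!`
shows that the subgroup which normalises all `t` in `𝒯` induces on some `t` a group `D` of automorphisms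
of order divisible by `p` and `r`. The inner automorphisms have index at most two in the automorphism
group, so `D` lies in `T`. It is transitive on the `p + 1` points, so its order is even, a contradiction.
-/

set_option autoImplicit false

namespace Pool.Agent.Results.MP_bc729a_al.LinearGroupsOfDegreeTwo

open scoped MatrixGroups

/-- The simple group `T` is a composition factor of `G`: `G` is isomorphic to `T`, or `T` is a
composition factor of a normal subgroup or of a quotient of `G`. -/
inductive IsCompositionFactor (T : Type) [Group T] : (G : Type) → [Group G] → Prop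
  | refl {G : Type} [Group G] (e : G ≃* T) : IsCompositionFactor T G
  | normal {G : Type} [Group G] (N : Subgroup G) (hN : N.Normal)
      (h : IsCompositionFactor T N) : IsCompositionFactor T G
  | quotient {G : Type} [Group G] (N : Subgroup G) (hN : N.Normal)
      (h : IsCompositionFactor T (G ⧸ N)) : IsCompositionFactor T G

/-- Every maximal subgroup `M` of `G` has a complement: a subgroup `K` with `M K = G` and
`M ∩ K = 1`. -/
def MaximalSubgroupsComplemented (G : Type) [Group G] : Prop :=
  ∀ M : Subgroup G, IsCoatom M → ∃ K : Subgroup G, (∀ g : G, ∃ m ∈ M, ∃ k ∈ K, m * k = g) ∧ M ⊓ K = ⊥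

/-- `T` is a composition factor of a finite group in which all maximal subgroups have complements. -/
def Occurs (T : Type) [Group T] : Prop :=
  ∃ (G : Type) (_ : Group G) (_ : Finite G), MaximalSubgroupsComplemented G ∧ IsCompositionFactor T G

theorem toFactor {T : Type} [Group T] {G : Type} [Group G] (h : IsCompositionFactor T G) :
    Pool.Agent.V8H87.CM.IsFactor T G := by
  induction h with
  | refl e => exact .iso e
  | normal N hN _ ih => exact .sub N hN ih
  | quotient N hN _ ih => exact .quot N hN ih

theorem not_occurs {T : Type} [Group T]
    (h : ∀ (G : Type) [Group G] [Finite G], Pool.Agent.V8H87.CM.MaxCompl G →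
      ¬ Pool.Agent.V8H87.CM.IsFactor T G) : ¬ Occurs T := by
  rintro ⟨G, _, _, hG, hT⟩
  refine h G (fun M hM => ?_) (toFactor hT)
  obtain ⟨K, hK, hMK⟩ := hG M hM
  refine ⟨K, Subgroup.isComplement'_of_disjoint_and_mul_eq_univ (disjoint_iff.2 hMK) ?_⟩
  rw [Set.eq_univ_iff_forall]
  intro g
  obtain ⟨m, hm, k, hk, hmk⟩ := hK g
  exact Set.mem_mul.2 ⟨m, hm, k, hk, hmk⟩

/-- **(1)** `L_2(q)`, `q ≥ 4` different from 7 and 11, is not a composition factor of a finite group in
which every maximal subgroup has a complement, if `q` is not congruent to 1 modulo 4 or if `q` is a prime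
different from 5.
**(2)** The same holds for each finite simple group `T` with a doubly transitive action on
`2 ^ a + 1` points, `a ≥ 1`, such that automorphisms of `T` map point stabilisers to point stabilisers
and the stabiliser of an unordered pair of points fixes no point.
**(3)** The same holds for each finite simple group `T` which satisfies the criterion. -/
theorem result :
    (∀ (F : Type) [Field F] [Finite F], 4 ≤ Nat.card F →
      (Nat.card F % 4 ≠ 1 ∨ (Nat.card F).Prime ∧ Nat.card F ≠ 5) → Nat.card F ≠ 7 →
      Nat.card F ≠ 11 → ¬ Occurs PSL(2, F)) ∧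
    (∀ (T : Type) [Group T] [Finite T] [IsSimpleGroup T] (Ω : Type) [MulAction T Ω] [Finite Ω] (a : ℕ),
      a ≠ 0 → Nat.card Ω = 2 ^ a + 1 →
      (∀ x y u v : Ω, x ≠ y → u ≠ v → ∃ g : T, g • x = u ∧ g • y = v) →
      (∀ (α : T ≃* T) (x : Ω), ∃ y : Ω,
        (MulAction.stabilizer T x).map α.toMonoidHom = MulAction.stabilizer T y) →
      (∀ x y z : Ω, x ≠ y →
        ∃ g : T, ((g • x = x ∧ g • y = y) ∨ (g • x = y ∧ g • y = x)) ∧ g • z ≠ z) →
      ¬ Occurs T) ∧
    (∀ (T : Type) [Group T] [IsSimpleGroup T] (A : Subgroup T) (p : ℕ), p.Prime → A ≠ ⊥ → A ≠ ⊤ →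
      (∀ α : T ≃* T, ∃ s : T, A.map α.toMonoidHom = A.map (MulAut.conj s).toMonoidHom) →
      (∀ C : Subgroup T, A ≤ C → C ≠ ⊤ → p ∣ C.index) →
      (∀ α : MulAut T, α ^ p = 1 → ∃ s : T,
        (A.map (MulAut.conj s).toMonoidHom).map α.toMonoidHom = A.map (MulAut.conj s).toMonoidHom) →
      ¬ Occurs T) := by
  refine ⟨?_, ?_, ?_⟩
  · intro F _ _ h4 h1 h7 h11
    by_cases h : Nat.card F % 4 = 1
    · have h5 := h1.resolve_left (fun h2 => h2 h)
      have h9 : Nat.card F ≠ 9 := by
        intro h9
        rw [h9] at h5
        exact absurd h5.1 (by norm_num)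
      exact not_occurs fun G _ _ hG =>
        Pool.Agent.V8H87.CM.no_psl_prime h5.1 h (by omega) G hG
    · exact not_occurs fun G _ _ hG => Pool.Agent.V8H87.CM.no_psl h4 h h7 h11 G hG
  · intro T _ _ _ Ω _ _ a ha hn h2 hinv hfix
    exact not_occurs fun G _ _ hG =>
      Pool.Agent.V8H87.CM.degree_two_pow (Ω := Ω) h2 hinv hn ha hfix G hG
  · intro T _ _ A p hp hA0 hA1 h1 hC h2
    exact not_occurs fun G _ _ hG =>
      Pool.Agent.V8H87.CM.criterion' hA0 hA1 h1 hp hC h2 G hG

end Pool.Agent.Results.MP_bc729a_al.LinearGroupsOfDegreeTwo
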