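import Pool.Agent.V8H87.CM.Final

/-!
# MP_bc729a_al, Q1: no alternating group is a composition factor of a finite group in which every
# maximal subgroup has a complement

The proof uses neither the classification of the finite simple groups nor results on factorisations.
Let `T = A_n` be a composition factor of `G`. By passing to a quotient one may assume that `T` is a
factor of each minimal normal subgroup `N` of `G`; such an `N` is generated by a conjugacy class `𝒯`
of pairwise commuting subgroups isomorphic to `T`.

For `n` different from `6`, `7`, `15` there are a prime `p` (`2` or `3`) and a number `m < n / 2`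
with `p ∣ m` and `p ∣ C(n, m)` (Lucas). The automorphisms of `A_n` are induced by permutations
(`V8H87/CM/Aut.lean`), so `G` acts on the families of stabilisers of `m`-sets, one in each `t` in `𝒯`;
the stabiliser `M` of a family is maximal in `G` and `|G : M|` is divisible by `p`. Each permutation
of order `p` fixes an `m`-set, so each element of order `p` of `G` fixes a family (also if it permutes
the members of `𝒯`), and so it is contained in a conjugate of `M`; hence `M` has no complement.

For `n = 7` and `n = 15` take `m = 3`. A complement has order `35 ^ k` resp. `455 ^ k`, `k = #𝒯`.
Comparison with `k!` shows that its subgroup normalising all `t` in `𝒯` induces on some `t` a group of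
automorphisms of order divisible by `35` resp. `91` and prime to `6`. But a subgroup of `S_7` resp.
`S_15` of order prime to `6` and divisible by `7` resp. `13` has order `7` resp. `13`.

For `n = 6` let `M` be a maximal subgroup which contains the stabiliser of a family of Sylow
2-subgroups. Then `M ∩ t` has index `15` or `45` in `t`, and as before a complement induces on some `t`
a group of automorphisms of odd order divisible by `15`; this is impossible, because `S_6` has index
two in the automorphism group of `A_6`.
-/

set_option autoImplicit false

namespace Pool.Agent.Results.MP_bc729a_al.NoAlternatingFactors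

/-- The simple group `T` is a composition factor of `G`: `G` is isomorphic to `T`, or `T` is a
composition factor of a normal subgroup or of a quotient of `G`. -/
inductive IsCompositionFactor (T : Type) [Group T] : (G : Type) → [Group G] → Prop
  | refl {G : Type} [Group G] (e : G ≃* T) : IsCompositionFactor T G
  | normal {G : Type} [Group G] (N : Subgroup G) (hN : N.Normal)
      (h : IsCompositionFactor T N) : IsCompositionFactor T G
  | quotient {G : Type} [Group G] (N : Subgroup G) (hN : N.Normal)
      (h : IsCompositionFactor T (G ⧸ N)) : IsCompositionFactor T G

/-- Every maximal subgroup `M` of `G` has a complement: a subgroup `K` with `M K = G` and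
`M ∩ K = 1`. -/
def MaximalSubgroupsComplemented (G : Type) [Group G] : Prop :=
  ∀ M : Subgroup G, IsCoatom M → ∃ K : Subgroup G, (∀ g : G, ∃ m ∈ M, ∃ k ∈ K, m * k = g) ∧ M ⊓ K = ⊥

theorem toFactor {T : Type} [Group T] {G : Type} [Group G] (h : IsCompositionFactor T G) :
    Pool.Agent.V8H87.CM.IsFactor T G := by
  induction h with
  | refl e => exact .iso e
  | normal N hN _ ih => exact .sub N hN ih
  | quotient N hN _ ih => exact .quot N hN ih

/-- **No alternating group `A_n`, `n ≥ 5`, is a composition factor of a finite group in which every
maximal subgroup has a complement.** -/
theorem result (n : ℕ) (hn : 5 ≤ n) (G : Type) [Group G] [Finite G]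
    (hG : MaximalSubgroupsComplemented G) :
    ¬ IsCompositionFactor (alternatingGroup (Fin n)) G := by
  intro h
  refine Pool.Agent.V8H87.CM.not_alternating hn G (fun M hM => ?_) (toFactor h)
  obtain ⟨K, hK, hMK⟩ := hG M hM
  refine ⟨K, Subgroup.isComplement'_of_disjoint_and_mul_eq_univ (disjoint_iff.2 hMK) ?_⟩
  rw [Set.eq_univ_iff_forall]
  intro g
  obtain ⟨m, hm, k, hk, hmk⟩ := hK g
  exact Set.mem_mul.2 ⟨m, hm, k, hk, hmk⟩

end Pool.Agent.Results.MP_bc729a_al.NoAlternatingFactors
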